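import Pool.Agent.H79.QN.Stmts

set_option autoImplicit false

namespace Pool.Agent.H79.QN

open Finset

theorem cla_ph_cont (φ : ℝ → ℝ) (hφ : Continuous φ) (z : ℤ × ℤ) : Continuous (ph φ z) := by
  unfold ph e
  fun_prop

theorem cla (h1 : S_SCH) : S_CLA := by
  intro ι _ φ Z c R cl hφ hR hrow
  have hcont : ∀ (Y : Finset (ℤ × ℤ)), Continuous (fun x : ℝ => ‖∑ z ∈ Y, c z * ph φ z x‖ ^ 2) := by
    intro Y
    refine (Continuous.norm ?_).pow 2
    exact continuous_finset_sum _ (fun z _ => continuous_const.mul (cla_ph_cont φ hφ z))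
  have hint : ∀ (Y : Finset (ℤ × ℤ)),
      IntervalIntegrable (fun x : ℝ => ‖∑ z ∈ Y, c z * ph φ z x‖ ^ 2) MeasureTheory.volume (-1) 1 :=
    fun Y => (hcont Y).intervalIntegrable _ _
  -- pointwise
  have hpt : ∀ x : ℝ, ‖∑ z ∈ Z, c z * ph φ z x‖ ^ 2 ≤
      ((Z.image cl).card : ℝ) * ∑ t ∈ Z.image cl, ‖∑ z ∈ Z with cl z = t, c z * ph φ z x‖ ^ 2 := by
    intro x
    have e1 : ∑ z ∈ Z, c z * ph φ z x
        = ∑ t ∈ Z.image cl, ∑ z ∈ Z with cl z = t, c z * ph φ z x :=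
      (Finset.sum_fiberwise_of_maps_to (fun z hz => Finset.mem_image_of_mem cl hz) _).symm
    rw [e1]
    calc ‖∑ t ∈ Z.image cl, ∑ z ∈ Z with cl z = t, c z * ph φ z x‖ ^ 2
        ≤ (∑ t ∈ Z.image cl, ‖∑ z ∈ Z with cl z = t, c z * ph φ z x‖) ^ 2 := by
          gcongr
          exact norm_sum_le _ _
      _ ≤ ((Z.image cl).card : ℝ) * ∑ t ∈ Z.image cl, ‖∑ z ∈ Z with cl z = t, c z * ph φ z x‖ ^ 2 :=
          sq_sum_le_card_mul_sum_sq
  have hsum : IntervalIntegrable (fun x : ℝ => ((Z.image cl).card : ℝ) *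
      ∑ t ∈ Z.image cl, ‖∑ z ∈ Z with cl z = t, c z * ph φ z x‖ ^ 2)
      MeasureTheory.volume (-1) 1 := by
    refine Continuous.intervalIntegrable ?_ _ _
    exact continuous_const.mul (continuous_finset_sum _ (fun t _ => hcont _))
  have hcls : ∀ t ∈ Z.image cl,
      ∫ x in (-1 : ℝ)..1, ‖∑ z ∈ Z with cl z = t, c z * ph φ z x‖ ^ 2
        ≤ R * ∑ z ∈ Z with cl z = t, ‖c z‖ ^ 2 := by
    intro t _
    refine h1 φ (Z.filter (fun z => cl z = t)) c R hφ hR ?_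
    intro z hz
    rw [Finset.mem_filter] at hz
    have := hrow z hz.1
    rw [hz.2] at this
    exact this
  calc ∫ x in (-1 : ℝ)..1, ‖∑ z ∈ Z, c z * ph φ z x‖ ^ 2
      ≤ ∫ x in (-1 : ℝ)..1, ((Z.image cl).card : ℝ) *
          ∑ t ∈ Z.image cl, ‖∑ z ∈ Z with cl z = t, c z * ph φ z x‖ ^ 2 :=
        intervalIntegral.integral_mono_on (by norm_num) (hint Z) hsum (fun x _ => hpt x)
    _ = ((Z.image cl).card : ℝ) * ∑ t ∈ Z.image cl,
          ∫ x in (-1 : ℝ)..1, ‖∑ z ∈ Z with cl z = t, c z * ph φ z x‖ ^ 2 := by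
        rw [intervalIntegral.integral_const_mul, intervalIntegral.integral_finset_sum]
        intro t _
        exact hint _
    _ ≤ ((Z.image cl).card : ℝ) * ∑ t ∈ Z.image cl, (R * ∑ z ∈ Z with cl z = t, ‖c z‖ ^ 2) := by
        gcongr with t ht
        exact hcls t ht
    _ = ((Z.image cl).card : ℝ) * R * ∑ z ∈ Z, ‖c z‖ ^ 2 := by
        rw [← Finset.mul_sum, Finset.sum_fiberwise_of_maps_to
          (fun z hz => Finset.mem_image_of_mem cl hz), mul_assoc]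

end Pool.Agent.H79.QN
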